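import Pool.Agent.Run7.h105.PC.Defs

/-!
Project PC (helper105), piece BAD (helper593): the subcells of scale `k p` which meet `K` lie in cells
of scale `k` which meet `K`, at most `p` in each and at most `p - 1` in a bad one.
-/

set_option autoImplicit false

open Pool.Agent.Run7.h105.PC

namespace Pool.Agent.Run7.h593.PC

theorem t_BAD : S_BAD := by
  classical
  intro K k p hk hp
  have hk0 : (0 : ℝ) < k := by exact_mod_cast hk
  have hp0 : (0 : ℝ) < p := by exact_mod_cast hp
  -- a subcell which meets `K` lies in a cell which meets `K`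
  have hmaps : ∀ j ∈ cells K (k * p), j / p ∈ cells K k := by
    intro j hj
    rw [cells, Finset.mem_filter, Finset.mem_range] at hj ⊢
    obtain ⟨hj1, x, hxK, hx1, hx2⟩ := hj
    have hdm : p * (j / p) + j % p = j := Nat.div_add_mod j p
    have hmod : j % p < p := Nat.mod_lt _ hp
    refine ⟨?_, x, hxK, ?_, ?_⟩
    · have h1 : j / p ≤ k := by
        have : j ≤ k * p := by omega
        calc j / p ≤ (k * p) / p := Nat.div_le_div_right this
          _ = k := Nat.mul_div_cancel _ hp
      omega
    · refine le_trans ?_ hx1
      push_cast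
      rw [div_le_div_iff₀ hk0 (by positivity)]
      have h1 : ((p : ℝ) * ((j / p : ℕ) : ℝ)) ≤ (j : ℝ) := by
        have : p * (j / p) ≤ j := by omega
        exact_mod_cast this
      nlinarith
    · refine lt_of_lt_of_le hx2 ?_
      push_cast
      rw [div_le_div_iff₀ (by positivity) hk0]
      have h1 : (j : ℝ) + 1 ≤ (p : ℝ) * (((j / p : ℕ) : ℝ) + 1) := by
        have : j + 1 ≤ p * (j / p + 1) := by
          rw [mul_add]; omega
        exact_mod_cast this
      nlinarith
  -- the fibres
  have hfib : ∀ i ∈ cells K k, ((cells K (k * p)).filter (fun j => j / p = i)).card +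
      (if i ∈ bad K k p then 1 else 0) ≤ p := by
    intro i _
    have hsub : (cells K (k * p)).filter (fun j => j / p = i) ⊆ Finset.Ico (i * p) ((i + 1) * p) := by
      intro j hj
      rw [Finset.mem_filter] at hj
      obtain ⟨_, h⟩ := hj
      have hdm : p * (j / p) + j % p = j := Nat.div_add_mod j p
      have hmod : j % p < p := Nat.mod_lt _ hp
      rw [h] at hdm
      rw [Finset.mem_Ico]
      have e1 : i * p = p * i := mul_comm i p
      have e2 : (i + 1) * p = p * i + p := by ring
      rw [e1, e2]
      constructor <;> omega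
    have hcard : (Finset.Ico (i * p) ((i + 1) * p)).card = p := by
      rw [Nat.card_Ico, add_mul, one_mul]; omega
    split_ifs with hb
    · rw [bad, Finset.mem_filter] at hb
      obtain ⟨_, j, h1, h2, h3⟩ := hb
      have hss : (cells K (k * p)).filter (fun j => j / p = i) ⊂ Finset.Ico (i * p) ((i + 1) * p) := by
        refine Finset.ssubset_iff_subset_ne.2 ⟨hsub, ?_⟩
        intro heq
        have hj : j ∈ Finset.Ico (i * p) ((i + 1) * p) := Finset.mem_Ico.2 ⟨h1, h2⟩
        rw [← heq, Finset.mem_filter] at hj
        exact h3 hj.1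
      have := Finset.card_lt_card hss
      omega
    · have := Finset.card_le_card hsub
      omega
  have hsum := Finset.card_eq_sum_card_fiberwise (f := fun j => j / p) (s := cells K (k * p))
    (t := cells K k) hmaps
  have hbad : (bad K k p).card = ∑ i ∈ cells K k, (if i ∈ bad K k p then 1 else 0) := by
    rw [Finset.sum_ite_mem, Finset.sum_const, smul_eq_mul, mul_one]
    congr 1
    rw [Finset.inter_eq_right.2]
    intro i hi
    rw [bad, Finset.mem_filter] at hi
    exact hi.1
  rw [hsum, hbad, ← Finset.sum_add_distrib]
  refine (Finset.sum_le_sum hfib).trans ?_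
  rw [Finset.sum_const, smul_eq_mul, mul_comm]

end Pool.Agent.Run7.h593.PC

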